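import Mathlib

/-!
# MP_9f84a9_co, section 8: the lattice lemma (core)

`Pl a b K`: the set `K` of facets is built from the edge `{a, b}` by adding triangles `{u, v, w}`
with a new tip `w` over two vertices `u, v` of a common facet. `Ch K x y s`: a chain from `x` to `y`
in the complex, of length `s`, consecutive points in a common facet; the steps are measured in the
supremum norm of the barycentric coordinates. `NL K q B s`: the net `B` hanging at the point `q`
has total length `s`, for some choice of the chains. The core lemma `lattice_core`: a net with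
distinct leaves, different from the root `a`, hanging at the vertex `a`, has length at least its
number of leaves.
-/

set_option autoImplicit false
set_option linter.unusedSectionVars false

namespace Pool.Agent.Lib.MP_9f84a9_co.Lat

variable {V : Type} [Fintype V] [DecidableEq V]

/-- `x` is a point of the face `σ` -/
def InF (σ : Finset V) (x : V → ℝ) : Prop :=
  (∀ v, 0 ≤ x v) ∧ (∑ v, x v = 1) ∧ ∀ v, v ∉ σ → x v = 0

/-- the vertex `v` as a point -/
def dl (v : V) : V → ℝ := Pi.single v 1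

/-- chains and their lengths -/
inductive Ch (K : Finset (Finset V)) : (V → ℝ) → (V → ℝ) → ℝ → Prop
  | nil (x : V → ℝ) (σ : Finset V) : σ ∈ K → InF σ x → Ch K x x 0
  | cons (x y z : V → ℝ) (s : ℝ) (σ : Finset V) : σ ∈ K → InF σ x → InF σ y → Ch K y z s →
      Ch K x z (dist x y + s)

/-- nets -/
inductive Net (V : Type) : Type
  | leaf : V → Net V
  | node : (V → ℝ) → Net V → Net V → Net V

/-- the leaves of a net -/
def Net.leaves : Net V → List V
  | .leaf v => [v]
  | .node _ l r => l.leaves ++ r.leaves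

/-- the total length of a net hanging at `q`, for some choice of the chains -/
def NL (K : Finset (Finset V)) : (V → ℝ) → Net V → ℝ → Prop
  | q, .leaf v, s => Ch K q (dl v) s
  | q, .node z l r, s => ∃ s0 s1 s2, Ch K q z s0 ∧ NL K z l s1 ∧ NL K z r s2 ∧ s = s0 + s1 + s2

/-- polygonal complexes -/
inductive Pl (a b : V) : Finset (Finset V) → Prop
  | base : a ≠ b → Pl a b {{a, b}}
  | ear (K : Finset (Finset V)) (u v w : V) : Pl a b K → (∃ σ ∈ K, u ∈ σ ∧ v ∈ σ) → u ≠ v →
      (∀ σ ∈ K, w ∉ σ) → Pl a b (insert {u, v, w} K)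

/-! ### Basic facts -/

theorem dl_self (v : V) : dl v v = 1 := by simp [dl]

theorem dl_ne {v w : V} (h : w ≠ v) : dl v w = 0 := by simp [dl, h]

theorem inF_dl {σ : Finset V} {v : V} (h : v ∈ σ) : InF σ (dl v) := by
  refine ⟨fun w => ?_, ?_, fun w hw => dl_ne fun e => hw (e ▸ h)⟩
  · by_cases hw : w = v
    · subst hw; rw [dl_self]; exact zero_le_one
    · rw [dl_ne hw]
  · simp [dl]

theorem mem_of_inF_dl {σ : Finset V} {v : V} (h : InF σ (dl v)) : v ∈ σ := by
  by_contra hv
  have := h.2.2 v hv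
  rw [dl_self] at this
  exact one_ne_zero this

theorem InF.mono {σ τ : Finset V} {x : V → ℝ} (h : InF σ x) (hs : σ ⊆ τ) : InF τ x :=
  ⟨h.1, h.2.1, fun v hv => h.2.2 v fun h' => hv (hs h')⟩

theorem InF.le_one {σ : Finset V} {x : V → ℝ} (h : InF σ x) (v : V) : x v ≤ 1 := by
  rw [← h.2.1]
  exact Finset.single_le_sum (fun w _ => h.1 w) (Finset.mem_univ v)

variable {K : Finset (Finset V)}

theorem Ch.nonneg {x y : V → ℝ} {s : ℝ} (h : Ch K x y s) : 0 ≤ s := by
  induction h with
  | nil => exact le_rfl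
  | cons x y z s σ _ _ _ _ ih => exact add_nonneg dist_nonneg ih

theorem Ch.dist_le {x y : V → ℝ} {s : ℝ} (h : Ch K x y s) : dist x y ≤ s := by
  induction h with
  | nil => rw [dist_self]
  | cons x y z s σ _ _ _ _ ih => exact (dist_triangle x y z).trans (add_le_add le_rfl ih)

theorem Ch.coord_le {x y : V → ℝ} {s : ℝ} (h : Ch K x y s) (w : V) : |x w - y w| ≤ s := by
  have := dist_le_pi_dist x y w
  rw [Real.dist_eq] at this
  exact this.trans h.dist_le

theorem Ch.left {x y : V → ℝ} {s : ℝ} (h : Ch K x y s) : ∃ σ ∈ K, InF σ x := by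
  cases h with
  | nil _ σ h1 h2 => exact ⟨σ, h1, h2⟩
  | cons _ y _ s σ h1 h2 _ _ => exact ⟨σ, h1, h2⟩

theorem Ch.right {x y : V → ℝ} {s : ℝ} (h : Ch K x y s) : ∃ σ ∈ K, InF σ y := by
  induction h with
  | nil _ σ h1 h2 => exact ⟨σ, h1, h2⟩
  | cons _ y _ s σ _ _ _ _ ih => exact ih

theorem Ch.trans {x y z : V → ℝ} {s t : ℝ} (h : Ch K x y s) (h' : Ch K y z t) :
    Ch K x z (s + t) := by
  induction h with
  | nil => rwa [zero_add]
  | cons x y _ s σ h1 h2 h3 _ ih =>
    rw [add_assoc]
    exact Ch.cons _ _ _ _ σ h1 h2 h3 (ih h')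

/-- the net `B` may be hung at `q` instead of `z` -/
theorem NL.trans {q z : V → ℝ} {s t : ℝ} (h : Ch K q z s) {B : Net V} (h' : NL K z B t) :
    NL K q B (s + t) := by
  cases B with
  | leaf v => exact Ch.trans h h'
  | node y l r =>
    obtain ⟨s0, s1, s2, h0, h1, h2, rfl⟩ := h'
    exact ⟨s + s0, s1, s2, h.trans h0, h1, h2, by ring⟩

theorem Net.leaves_ne_nil : ∀ B : Net V, B.leaves ≠ []
  | .leaf v => by simp [Net.leaves]
  | .node _ l r => by
    have := Net.leaves_ne_nil l
    simp [Net.leaves, this]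

theorem NL.mem_leaf {q : V → ℝ} {B : Net V} {s : ℝ} (h : NL K q B s) :
    ∀ v ∈ B.leaves, ∃ σ ∈ K, v ∈ σ := by
  induction B generalizing q s with
  | leaf v =>
    intro w hw
    rw [Net.leaves, List.mem_singleton] at hw
    subst hw
    obtain ⟨σ, h1, h2⟩ := Ch.right h
    exact ⟨σ, h1, mem_of_inF_dl h2⟩
  | node z l r ihl ihr =>
    obtain ⟨s0, s1, s2, h0, h1, h2, rfl⟩ := h
    intro w hw
    rw [Net.leaves, List.mem_append] at hw
    rcases hw with hw | hw
    · exact ihl h1 w hw
    · exact ihr h2 w hw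

/-! ### Pushing the weight of `w` to `u` -/

/-- move the weight of `w` to `u` -/
def psh (w u : V) (x : V → ℝ) : V → ℝ :=
  fun t => if t = w then 0 else if t = u then x u + x w else x t

theorem psh_w (w u : V) (x : V → ℝ) : psh w u x w = 0 := by simp [psh]

theorem psh_u {w u : V} (h : u ≠ w) (x : V → ℝ) : psh w u x u = x u + x w := by simp [psh, h]

theorem psh_ne {w u t : V} (h1 : t ≠ w) (h2 : t ≠ u) (x : V → ℝ) : psh w u x t = x t := by
  simp [psh, h1, h2]

/-- points with weight zero at `w` are fixed -/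
theorem psh_fix {w u : V} {x : V → ℝ} (h : x w = 0) : psh w u x = x := by
  funext t
  unfold psh
  split_ifs with h1 h2
  · rw [h1, h]
  · rw [h2, h, add_zero]
  · rfl

theorem psh_dl {w u v : V} (h : v ≠ w) : psh w u (dl v) = dl v := psh_fix (dl_ne (Ne.symm h))

theorem sum_psh {w u : V} (h : u ≠ w) (x : V → ℝ) : ∑ t, psh w u x t = ∑ t, x t := by
  have e : ∀ t, psh w u x t = x t + (if t = u then x w else 0) - (if t = w then x w else 0) := by
    intro t
    unfold psh
    by_cases h1 : t = w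
    · subst h1
      rw [if_pos rfl, if_neg (Ne.symm h), if_pos rfl]; ring
    · rw [if_neg h1, if_neg h1]
      by_cases h2 : t = u
      · subst h2
        rw [if_pos rfl, if_pos rfl]; ring
      · rw [if_neg h2, if_neg h2]; ring
  simp only [e]
  rw [Finset.sum_sub_distrib, Finset.sum_add_distrib]
  simp

/-- the image of a point of the triangle lies in the edge -/
theorem psh_tri {u v w : V} {σ : Finset V} (hu : u ∈ σ) (hv : v ∈ σ) (huw : u ≠ w)
    {x : V → ℝ} (hx : InF {u, v, w} x) : InF σ (psh w u x) := by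
  refine ⟨fun t => ?_, ?_, fun t ht => ?_⟩
  · unfold psh
    split_ifs
    · exact le_rfl
    · exact add_nonneg (hx.1 _) (hx.1 _)
    · exact hx.1 _
  · rw [sum_psh huw]; exact hx.2.1
  · have h1 : t ≠ u := fun h => ht (h ▸ hu)
    have h2 : t ≠ v := fun h => ht (h ▸ hv)
    by_cases h3 : t = w
    · subst h3; exact psh_w _ _ _
    · rw [psh_ne h3 h1]
      apply hx.2.2
      simp [h1, h2, h3]

/-- the two pushes of a point of the enlarged complex -/
theorem psh_mem {u v w : V} {K : Finset (Finset V)} (he : ∃ σ ∈ K, u ∈ σ ∧ v ∈ σ)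
    (hw : ∀ σ ∈ K, w ∉ σ) {τ : Finset V} (hτ : τ ∈ insert {u, v, w} K) {x : V → ℝ}
    (hx : InF τ x) : ∃ σ ∈ K, InF σ (psh w u x) := by
  obtain ⟨σ, hσ, hu, hv⟩ := he
  rcases Finset.mem_insert.1 hτ with h | h
  · subst h
    have huw : u ≠ w := by
      intro e
      rw [e] at hu
      exact hw σ hσ hu
    exact ⟨σ, hσ, psh_tri hu hv huw hx⟩
  · refine ⟨τ, h, ?_⟩
    rw [psh_fix (hx.2.2 w (hw τ h))]
    exact hx

/-- three numbers with sum zero -/
theorem three_abs {a b c : ℝ} (h : a + b + c = 0) {M : ℝ} (ha : |a| ≤ M) (hb : |b| ≤ M)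
    (hc : |c| ≤ M) : |a| + |b| ≤ 2 * M - |c| := by
  rcases le_total 0 a with h1 | h1 <;> rcases le_total 0 b with h2 | h2 <;>
    rcases le_total 0 c with h3 | h3 <;>
    simp only [abs_of_nonneg, abs_of_nonpos, h1, h2, h3] at * <;> linarith

/-- in the triangle the two pushes decrease the lengths -/
theorem psh_step_tri {u v w : V} (huv : u ≠ v) (huw : u ≠ w) (hvw : v ≠ w) {x y : V → ℝ}
    (hx : InF {u, v, w} x) (hy : InF {u, v, w} y) :
    dist (psh w u x) (psh w u y) + dist (psh w v x) (psh w v y) ≤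
      2 * dist x y - |x w - y w| := by
  have hsum : ∀ z : V → ℝ, InF {u, v, w} z → z u + z v + z w = 1 := by
    intro z hz
    rw [← hz.2.1]
    have h1 : ∑ t ∈ ({u, v, w} : Finset V), z t = ∑ t, z t :=
      Finset.sum_subset (Finset.subset_univ _) fun t _ ht => hz.2.2 t ht
    rw [← h1, Finset.sum_insert, Finset.sum_insert, Finset.sum_singleton]
    · ring
    · simpa using hvw
    · simp [huv, huw]
  have hx1 := hsum x hx
  have hy1 := hsum y hy
  have hout : ∀ t, t ≠ u → t ≠ v → t ≠ w → x t = 0 ∧ y t = 0 := by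
    intro t h1 h2 h3
    exact ⟨hx.2.2 t (by simp [h1, h2, h3]), hy.2.2 t (by simp [h1, h2, h3])⟩
  have hu : dist (psh w u x) (psh w u y) ≤ |x v - y v| := by
    rw [dist_pi_le_iff (abs_nonneg _)]
    intro t
    rw [Real.dist_eq]
    by_cases h1 : t = w
    · subst h1
      rw [psh_w, psh_w, sub_self, abs_zero]; exact abs_nonneg _
    · by_cases h2 : t = u
      · subst h2
        rw [psh_u huw, psh_u huw]
        have : x t + x w - (y t + y w) = -(x v - y v) := by linarith
        rw [this, abs_neg]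
      · rw [psh_ne h1 h2, psh_ne h1 h2]
        by_cases h3 : t = v
        · rw [h3]
        · obtain ⟨e1, e2⟩ := hout t h2 h3 h1
          rw [e1, e2, sub_self, abs_zero]; exact abs_nonneg _
  have hv : dist (psh w v x) (psh w v y) ≤ |x u - y u| := by
    rw [dist_pi_le_iff (abs_nonneg _)]
    intro t
    rw [Real.dist_eq]
    by_cases h1 : t = w
    · subst h1
      rw [psh_w, psh_w, sub_self, abs_zero]; exact abs_nonneg _
    · by_cases h2 : t = v
      · subst h2
        rw [psh_u hvw, psh_u hvw]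
        have : x t + x w - (y t + y w) = -(x u - y u) := by linarith
        rw [this, abs_neg]
      · rw [psh_ne h1 h2, psh_ne h1 h2]
        by_cases h3 : t = u
        · rw [h3]
        · obtain ⟨e1, e2⟩ := hout t h3 h2 h1
          rw [e1, e2, sub_self, abs_zero]; exact abs_nonneg _
  have hd : ∀ t, |x t - y t| ≤ dist x y := by
    intro t
    rw [← Real.dist_eq]
    exact dist_le_pi_dist x y t
  have h3 := three_abs (a := x u - y u) (b := x v - y v) (c := x w - y w) (by linarith)
    (hd u) (hd v) (hd w)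
  linarith

/-- the hypotheses for adding a triangle -/
structure Ear (K : Finset (Finset V)) (u v w : V) : Prop where
  /-- the edge -/
  e : ∃ σ ∈ K, u ∈ σ ∧ v ∈ σ
  /-- the ends are different -/
  uv : u ≠ v
  /-- the tip is new -/
  w : ∀ σ ∈ K, w ∉ σ

theorem Ear.uw {K : Finset (Finset V)} {u v w : V} (h : Ear K u v w) : u ≠ w := by
  obtain ⟨σ, hσ, hu, _⟩ := h.e
  intro e
  rw [e] at hu
  exact h.w σ hσ hu

theorem Ear.vw {K : Finset (Finset V)} {u v w : V} (h : Ear K u v w) : v ≠ w := by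
  obtain ⟨σ, hσ, _, hv⟩ := h.e
  intro e
  rw [e] at hv
  exact h.w σ hσ hv

theorem Ear.symm {K : Finset (Finset V)} {u v w : V} (h : Ear K u v w) : Ear K v u w :=
  ⟨by obtain ⟨σ, h1, h2, h3⟩ := h.e; exact ⟨σ, h1, h3, h2⟩, h.uv.symm, h.w⟩

theorem tri_comm (u v w : V) : ({u, v, w} : Finset V) = {v, u, w} := by
  ext t; simp only [Finset.mem_insert, Finset.mem_singleton]; tauto

theorem Ear.mem {K : Finset (Finset V)} {u v w : V} (h : Ear K u v w) {τ : Finset V}
    (hτ : τ ∈ insert {u, v, w} K) {x : V → ℝ} (hx : InF τ x) :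
    (∃ σ ∈ K, InF σ (psh w u x)) ∧ ∃ σ ∈ K, InF σ (psh w v x) := by
  refine ⟨psh_mem h.e h.w hτ hx, ?_⟩
  rw [tri_comm] at hτ
  exact psh_mem h.symm.e h.w hτ hx

/-- pushing a chain -/
theorem Ear.chain {K : Finset (Finset V)} {u v w : V} (h : Ear K u v w) {x y : V → ℝ} {s : ℝ}
    (hc : Ch (insert {u, v, w} K) x y s) : ∃ s1 s2, Ch K (psh w u x) (psh w u y) s1 ∧
      Ch K (psh w v x) (psh w v y) s2 ∧ s1 + s2 ≤ 2 * s - |x w - y w| := by
  induction hc with
  | nil x σ hσ hx =>
    obtain ⟨⟨σ1, h1, h1'⟩, σ2, h2, h2'⟩ := h.mem hσ hx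
    exact ⟨0, 0, Ch.nil _ σ1 h1 h1', Ch.nil _ σ2 h2 h2', by simp⟩
  | cons x y z s σ hσ hx hy _ ih =>
    obtain ⟨s1, s2, c1, c2, hs⟩ := ih
    have key : ∃ t1 t2, Ch K (psh w u x) (psh w u y) t1 ∧ Ch K (psh w v x) (psh w v y) t2 ∧
        t1 + t2 ≤ 2 * dist x y - |x w - y w| := by
      rcases Finset.mem_insert.1 hσ with e | hσK
      · subst e
        obtain ⟨σ0, h0, hu, hv⟩ := h.e
        refine ⟨dist (psh w u x) (psh w u y) + 0, dist (psh w v x) (psh w v y) + 0, ?_, ?_, ?_⟩
        · exact Ch.cons _ _ _ _ σ0 h0 (psh_tri hu hv h.uw hx) (psh_tri hu hv h.uw hy)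
            (Ch.nil _ σ0 h0 (psh_tri hu hv h.uw hy))
        · have hx' := hx
          have hy' := hy
          rw [tri_comm] at hx' hy'
          exact Ch.cons _ _ _ _ σ0 h0 (psh_tri hv hu h.vw hx') (psh_tri hv hu h.vw hy')
            (Ch.nil _ σ0 h0 (psh_tri hv hu h.vw hy'))
        · rw [add_zero, add_zero]
          exact psh_step_tri h.uv h.uw h.vw hx hy
      · have hxw : x w = 0 := hx.2.2 w (h.w σ hσK)
        have hyw : y w = 0 := hy.2.2 w (h.w σ hσK)
        refine ⟨dist x y + 0, dist x y + 0, ?_, ?_, ?_⟩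
        · rw [psh_fix hxw, psh_fix hyw]
          exact Ch.cons _ _ _ _ σ hσK hx hy (Ch.nil _ σ hσK hy)
        · rw [psh_fix hxw, psh_fix hyw]
          exact Ch.cons _ _ _ _ σ hσK hx hy (Ch.nil _ σ hσK hy)
        · rw [hxw, hyw]; simp; linarith
    obtain ⟨t1, t2, d1, d2, ht⟩ := key
    refine ⟨t1 + s1, t2 + s2, d1.trans c1, d2.trans c2, ?_⟩
    have h3 := abs_sub_le (x w) (y w) (z w)
    linarith

/-! ### Pushing nets -/

/-- the image of a net -/
def Net.push (w u : V) : Net V → Net V
  | .leaf v => .leaf v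
  | .node z l r => .node (psh w u z) (l.push w u) (r.push w u)

theorem Net.push_leaves (w u : V) : ∀ B : Net V, (B.push w u).leaves = B.leaves
  | .leaf _ => rfl
  | .node _ l r => by
    show (l.push w u).leaves ++ (r.push w u).leaves = l.leaves ++ r.leaves
    rw [Net.push_leaves w u l, Net.push_leaves w u r]

/-- a net without the leaf `w` -/
theorem Ear.net {K : Finset (Finset V)} {u v w : V} (h : Ear K u v w) {B : Net V} :
    ∀ {q : V → ℝ} {s : ℝ}, NL (insert {u, v, w} K) q B s → w ∉ B.leaves → 0 ≤ q w →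
      ∃ s1 s2, NL K (psh w u q) (B.push w u) s1 ∧ NL K (psh w v q) (B.push w v) s2 ∧
        s1 + s2 ≤ 2 * s - q w := by
  induction B with
  | leaf t =>
    intro q s hN hw hq
    rw [Net.leaves, List.mem_singleton] at hw
    obtain ⟨s1, s2, c1, c2, hs⟩ := h.chain hN
    rw [psh_dl (Ne.symm hw)] at c1 c2
    rw [dl_ne hw, sub_zero, abs_of_nonneg hq] at hs
    exact ⟨s1, s2, c1, c2, hs⟩
  | node z l r ihl ihr =>
    intro q s hN hw hq
    obtain ⟨t0, t1, t2, h0, h1, h2, rfl⟩ := hN
    rw [Net.leaves, List.mem_append, not_or] at hw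
    have hz : 0 ≤ z w := by
      obtain ⟨σ, _, hσ⟩ := Ch.right h0
      exact hσ.1 w
    obtain ⟨a1, a2, ca1, ca2, ha⟩ := h.chain h0
    obtain ⟨b1, b2, cb1, cb2, hb⟩ := ihl h1 hw.1 hz
    obtain ⟨c1, c2, cc1, cc2, hc⟩ := ihr h2 hw.2 hz
    refine ⟨a1 + b1 + c1, a2 + b2 + c2, ⟨a1, b1, c1, ca1, cb1, cc1, rfl⟩,
      ⟨a2, b2, c2, ca2, cb2, cc2, rfl⟩, ?_⟩
    have h3 := le_abs_self (q w - z w)
    linarith

/-- a net with the leaf `w`, more than one leaf: remove the leaf -/
theorem Ear.net' {K : Finset (Finset V)} {u v w : V} (h : Ear K u v w) {B : Net V} :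
    ∀ {q : V → ℝ} {s : ℝ}, NL (insert {u, v, w} K) q B s → w ∈ B.leaves → B.leaves.Nodup →
      B ≠ Net.leaf w → 0 ≤ q w →
      ∃ (B1 B2 : Net V) (s1 s2 : ℝ), B1.leaves = B.leaves.erase w ∧ B2.leaves = B.leaves.erase w ∧
        NL K (psh w u q) B1 s1 ∧ NL K (psh w v q) B2 s2 ∧ s1 + s2 ≤ 2 * s - 2 + q w := by
  induction B with
  | leaf t =>
    intro q s _ hw _ hne
    rw [Net.leaves, List.mem_singleton] at hw
    exact absurd (by rw [hw]) hne
  | node z l r ihl ihr =>
    intro q s hN hw hnd _ hq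
    obtain ⟨t0, t1, t2, h0, h1, h2, rfl⟩ := hN
    rw [Net.leaves] at hw hnd ⊢
    rw [List.nodup_append] at hnd
    obtain ⟨hl, hr, hdis⟩ := hnd
    have hz : 0 ≤ z w := by
      obtain ⟨σ, _, hσ⟩ := Ch.right h0
      exact hσ.1 w
    obtain ⟨a1, a2, ca1, ca2, ha⟩ := h.chain h0
    have h3 := neg_abs_le (q w - z w)
    have h4 := neg_le_abs (q w - z w)
    have h5 := le_abs_self (q w - z w)
    rcases List.mem_append.1 hw with hwl | hwr
    · have hwr : w ∉ r.leaves := fun hh => hdis w hwl w hh rfl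
      obtain ⟨c1, c2, cc1, cc2, hc⟩ := h.net h2 hwr hz
      have e : (l.leaves ++ r.leaves).erase w = l.leaves.erase w ++ r.leaves :=
        List.erase_append_left _ hwl
      rw [e]
      by_cases hlw : l = Net.leaf w
      · subst hlw
        refine ⟨r.push w u, r.push w v, a1 + c1, a2 + c2, ?_, ?_, NL.trans ca1 cc1,
          NL.trans ca2 cc2, ?_⟩
        · rw [Net.push_leaves]; simp [Net.leaves]
        · rw [Net.push_leaves]; simp [Net.leaves]
        · have h6 := Ch.coord_le h1 w
          rw [dl_self] at h6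
          have h7 := neg_le_abs (z w - 1)
          linarith
      · obtain ⟨B1, B2, b1, b2, e1, e2, cb1, cb2, hb⟩ := ihl h1 hwl hl hlw hz
        refine ⟨Net.node (psh w u z) B1 (r.push w u), Net.node (psh w v z) B2 (r.push w v),
          a1 + b1 + c1, a2 + b2 + c2, ?_, ?_, ⟨a1, b1, c1, ca1, cb1, cc1, rfl⟩,
          ⟨a2, b2, c2, ca2, cb2, cc2, rfl⟩, ?_⟩
        · rw [Net.leaves, e1, Net.push_leaves]
        · rw [Net.leaves, e2, Net.push_leaves]
        · linarith
    · have hwl : w ∉ l.leaves := fun hh => hdis w hh w hwr rfl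
      obtain ⟨c1, c2, cc1, cc2, hc⟩ := h.net h1 hwl hz
      have e : (l.leaves ++ r.leaves).erase w = l.leaves ++ r.leaves.erase w :=
        List.erase_append_right _ hwl
      rw [e]
      by_cases hrw : r = Net.leaf w
      · subst hrw
        refine ⟨l.push w u, l.push w v, a1 + c1, a2 + c2, ?_, ?_, NL.trans ca1 cc1,
          NL.trans ca2 cc2, ?_⟩
        · rw [Net.push_leaves]; simp [Net.leaves]
        · rw [Net.push_leaves]; simp [Net.leaves]
        · have h6 := Ch.coord_le h2 w
          rw [dl_self] at h6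
          have h7 := neg_le_abs (z w - 1)
          linarith
      · obtain ⟨B1, B2, b1, b2, e1, e2, cb1, cb2, hb⟩ := ihr h2 hwr hr hrw hz
        refine ⟨Net.node (psh w u z) (l.push w u) B1, Net.node (psh w v z) (l.push w v) B2,
          a1 + c1 + b1, a2 + c2 + b2, ?_, ?_, ⟨a1, c1, b1, ca1, cc1, cb1, rfl⟩,
          ⟨a2, c2, b2, ca2, cc2, cb2, rfl⟩, ?_⟩
        · rw [Net.leaves, e1, Net.push_leaves]
        · rw [Net.leaves, e2, Net.push_leaves]
        · linarith

/-! ### The core lemma -/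

theorem Pl.root {a b : V} {K : Finset (Finset V)} (h : Pl a b K) : ∃ σ ∈ K, a ∈ σ := by
  induction h with
  | base _ => exact ⟨{a, b}, by simp, by simp⟩
  | ear K u v w _ _ _ _ ih =>
    obtain ⟨σ, h1, h2⟩ := ih
    exact ⟨σ, Finset.mem_insert_of_mem h1, h2⟩

/-- The lattice lemma: a net with distinct leaves, different from the root `a`, which hangs at `a`
has length at least its number of leaves. -/
theorem lattice_core {a b : V} {K : Finset (Finset V)} (h : Pl a b K) :
    ∀ (B : Net V) (s : ℝ), NL K (dl a) B s → B.leaves.Nodup → a ∉ B.leaves →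
      (B.leaves.length : ℝ) ≤ s := by
  induction h with
  | base hab =>
    intro B s hN hnd ha
    have hmem : ∀ v ∈ B.leaves, v = b := by
      intro v hv
      obtain ⟨σ, h1, h2⟩ := hN.mem_leaf v hv
      rw [Finset.mem_singleton] at h1
      subst h1
      rw [Finset.mem_insert, Finset.mem_singleton] at h2
      rcases h2 with h2 | h2
      · exact absurd (h2 ▸ hv) ha
      · exact h2
    cases B with
    | leaf v =>
      have hv : v = b := hmem v (by simp [Net.leaves])
      subst hv
      have h1 := Ch.coord_le hN a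
      rw [dl_self, dl_ne hab, sub_zero, abs_one] at h1
      simpa [Net.leaves] using h1
    | node z l r =>
      exfalso
      rw [Net.leaves] at hnd hmem
      rw [List.nodup_append] at hnd
      obtain ⟨x, hx⟩ := List.exists_mem_of_ne_nil _ (Net.leaves_ne_nil l)
      obtain ⟨y, hy⟩ := List.exists_mem_of_ne_nil _ (Net.leaves_ne_nil r)
      have e1 := hmem x (List.mem_append_left _ hx)
      have e2 := hmem y (List.mem_append_right _ hy)
      exact hnd.2.2 x hx y hy (e1.trans e2.symm)
  | ear K u v w hK he huv hw ih =>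
    intro B s hN hnd ha
    have hE : Ear K u v w := ⟨he, huv, hw⟩
    have haw : a ≠ w := by
      obtain ⟨σ, h1, h2⟩ := hK.root
      intro e
      rw [e] at h2
      exact hw σ h1 h2
    have hq : dl a w = 0 := dl_ne (Ne.symm haw)
    by_cases hwB : w ∈ B.leaves
    · by_cases hB : B = Net.leaf w
      · subst hB
        have h1 := Ch.coord_le hN w
        rw [hq, dl_self, zero_sub, abs_neg, abs_one] at h1
        simpa [Net.leaves] using h1
      · obtain ⟨B1, B2, s1, s2, e1, e2, c1, c2, hs⟩ := hE.net' hN hwB hnd hB hq.ge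
        rw [psh_fix hq] at c1 c2
        have i1 := ih B1 s1 c1 (e1 ▸ hnd.erase w)
          (fun hh => ha (List.mem_of_mem_erase (e1 ▸ hh)))
        have i2 := ih B2 s2 c2 (e2 ▸ hnd.erase w)
          (fun hh => ha (List.mem_of_mem_erase (e2 ▸ hh)))
        rw [e1, List.length_erase_of_mem hwB] at i1
        rw [e2, List.length_erase_of_mem hwB] at i2
        have hpos : 0 < B.leaves.length := List.length_pos_of_mem hwB
        have hc : ((B.leaves.length - 1 : ℕ) : ℝ) = (B.leaves.length : ℝ) - 1 := by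
          rw [Nat.cast_sub hpos]; simp
        rw [hc] at i1 i2
        rw [hq] at hs
        linarith
    · obtain ⟨s1, s2, c1, c2, hs⟩ := hE.net hN hwB hq.ge
      rw [psh_fix hq] at c1 c2
      have i1 := ih _ s1 c1 (by rw [Net.push_leaves]; exact hnd)
        (by rw [Net.push_leaves]; exact ha)
      have i2 := ih _ s2 c2 (by rw [Net.push_leaves]; exact hnd)
        (by rw [Net.push_leaves]; exact ha)
      rw [Net.push_leaves] at i1 i2
      rw [hq] at hs
      linarith

end Pool.Agent.Lib.MP_9f84a9_co.Lat
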