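import Pool.Agent.Lib.MP_9f84a9_co.Out
import Pool.Agent.Lib.MP_9f84a9_co.StmA
import Pool.Agent.Lib.MP_9f84a9_co.StmB
import Pool.Agent.Lib.MP_9f84a9_co.Lat.Core

/-!
# MP_9f84a9_co, section 8: `S_lat` from the core lattice lemma
-/

set_option autoImplicit false

namespace Pool.Agent.Lib.MP_9f84a9_co.Lat

open Finset

variable {N : ℕ}

/-! ### The steps -/

theorem norm_sq_equi (p : Fin N → E) {f : Finset (Fin N)} {ℓ : ℝ}
    (hd : ∀ v ∈ f, ∀ w ∈ f, v ≠ w → dist (p v) (p w) = ℓ) {Δ : Fin N → ℝ} (h0 : ∑ v, Δ v = 0)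
    (hf : ∀ v, v ∉ f → Δ v = 0) :
    ‖∑ v, Δ v • p v‖ ^ 2 = ℓ ^ 2 / 2 * ∑ v, Δ v ^ 2 := by
  rw [← real_inner_self_eq_norm_sq, inner_sum_smul_sum_smul_of_sum_eq_zero _ h0 _ h0]
  have key : ∀ i j, Δ i * Δ j * (‖p i - p j‖ * ‖p i - p j‖) =
      Δ i * ℓ ^ 2 * Δ j - (if j = i then Δ i ^ 2 * ℓ ^ 2 else 0) := by
    intro i j
    by_cases hij : j = i
    · subst hij
      rw [sub_self, norm_zero, if_pos rfl]; ring
    · rw [if_neg hij]
      by_cases hi : i ∈ f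
      · by_cases hj : j ∈ f
        · have := hd i hi j hj (Ne.symm hij)
          rw [dist_eq_norm] at this
          rw [this]; ring
        · rw [hf j hj]; ring
      · rw [hf i hi]; ring
  have h1 : ∑ i, ∑ j, Δ i * Δ j * (‖p i - p j‖ * ‖p i - p j‖) = -(ℓ ^ 2 * ∑ v, Δ v ^ 2) := by
    rw [Finset.mul_sum, ← Finset.sum_neg_distrib]
    refine Finset.sum_congr rfl fun i _ => ?_
    simp only [key]
    rw [Finset.sum_sub_distrib, ← Finset.mul_sum, h0, Finset.sum_ite_eq' Finset.univ i]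
    simp only [Finset.mem_univ, if_true]
    ring
  rw [h1]; ring

theorem step_le (p : Fin N → E) {f : Finset (Fin N)} {ℓ : ℝ} (hℓ : 0 < ℓ) (h3 : f.card ≤ 3)
    (hd : ∀ v ∈ f, ∀ w ∈ f, v ≠ w → dist (p v) (p w) = ℓ) {x y : Pt N} (hx : ∑ v, x v = 1)
    (hy : ∑ v, y v = 1) (sx : Sup x f) (sy : Sup y f) :
    Real.sqrt 3 / 2 * ℓ * dist x y ≤ ce p x y := by
  set Δ : Fin N → ℝ := fun v => x v - y v with hΔ
  have h0 : ∑ v, Δ v = 0 := by
    rw [hΔ, Finset.sum_sub_distrib, hx, hy, sub_self]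
  have hf : ∀ v, v ∉ f → Δ v = 0 := by
    intro v hv
    show x v - y v = 0
    rw [sx v hv, sy v hv, sub_self]
  have hce : ce p x y = ‖∑ v, Δ v • p v‖ := by
    unfold ce pos
    rw [dist_eq_norm, ← Finset.sum_sub_distrib]
    congr 1
    refine Finset.sum_congr rfl fun v _ => ?_
    rw [← sub_smul]
  have hsq := norm_sq_equi p hd h0 hf
  rw [← hce] at hsq
  have hD : 0 ≤ ce p x y := by unfold ce; exact dist_nonneg
  have hκ : 0 < Real.sqrt 3 / 2 * ℓ := by positivity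
  have h3' : Real.sqrt 3 ^ 2 = 3 := Real.sq_sqrt (by norm_num)
  rw [mul_comm, ← le_div_iff₀ hκ, dist_pi_le_iff (div_nonneg hD hκ.le)]
  intro v
  rw [Real.dist_eq, le_div_iff₀ hκ]
  show |Δ v| * (Real.sqrt 3 / 2 * ℓ) ≤ ce p x y
  apply (pow_le_pow_iff_left₀ (by positivity) hD two_ne_zero).1
  rw [hsq, mul_pow, sq_abs, mul_pow, div_pow, h3']
  have hv : 3 / 2 * Δ v ^ 2 ≤ ∑ w, Δ w ^ 2 := by
    by_cases hvf : v ∈ f
    · have hs : ∑ w, Δ w ^ 2 = Δ v ^ 2 + ∑ w ∈ f.erase v, Δ w ^ 2 := by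
        rw [← Finset.sum_subset (Finset.subset_univ f), ← Finset.add_sum_erase f _ hvf]
        intro w _ hw
        rw [hf w hw]; ring
      have h1 : Δ v = -∑ w ∈ f.erase v, Δ w := by
        have h2 : ∑ w, Δ w = Δ v + ∑ w ∈ f.erase v, Δ w := by
          rw [← Finset.sum_subset (Finset.subset_univ f), ← Finset.add_sum_erase f _ hvf]
          intro w _ hw
          exact hf w hw
        linarith
      have h2 : (∑ w ∈ f.erase v, Δ w) ^ 2 ≤ (f.erase v).card * ∑ w ∈ f.erase v, Δ w ^ 2 :=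
        sq_sum_le_card_mul_sum_sq
      have hc : ((f.erase v).card : ℝ) ≤ 2 := by
        have : (f.erase v).card ≤ 2 := by
          rw [Finset.card_erase_of_mem hvf]; omega
        exact_mod_cast this
      have h4 : 0 ≤ ∑ w ∈ f.erase v, Δ w ^ 2 := Finset.sum_nonneg fun w _ => sq_nonneg _
      have h5 : Δ v ^ 2 = (∑ w ∈ f.erase v, Δ w) ^ 2 := by rw [h1]; ring
      have h6 := mul_le_mul_of_nonneg_right hc h4
      rw [hs]
      linarith
    · rw [hf v hvf]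
      have : 0 ≤ ∑ w, Δ w ^ 2 := Finset.sum_nonneg fun w _ => sq_nonneg _
      simpa using this
  nlinarith [sq_nonneg ℓ, mul_le_mul_of_nonneg_left hv (sq_nonneg ℓ)]

/-! ### Chains -/

theorem ch_of_path {K K0 : Cx N} (hK : K ⊆ K0) {c : Pt N → Pt N → ℝ} {κ : ℝ}
    (hc : ∀ x y, Stp K x y → κ * dist x y ≤ c x y) {x y : Pt N} {k : ℕ} {r : ℝ}
    (h : Path K c x y k r) : ∃ s, Ch K0 x y s ∧ κ * s ≤ r := by
  induction h with
  | nil x hx =>
    obtain ⟨h0, h1, f, hf, hs⟩ := hx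
    exact ⟨0, Ch.nil x f (hK hf) ⟨h0, h1, hs⟩, by rw [mul_zero]⟩
  | cons x y z k r hst _ ih =>
    obtain ⟨s, hs, hle⟩ := ih
    have h1 := hc x y hst
    obtain ⟨⟨hx0, hx1, _⟩, ⟨hy0, hy1, _⟩, f, hf, hsx, hsy⟩ := hst
    refine ⟨dist x y + s, Ch.cons _ _ _ _ f (hK hf) ⟨hx0, hx1, hsx⟩ ⟨hy0, hy1, hsy⟩ hs, ?_⟩
    rw [mul_add]
    exact add_le_add h1 hle

theorem ch_of_dK {K K0 : Cx N} (hK : K ⊆ K0) (hCn : Cn K) {c : Pt N → Pt N → ℝ} {κ : ℝ}
    (hc : ∀ x y, Stp K x y → κ * dist x y ≤ c x y) {x y : Pt N} (hx : In K x) (hy : In K y)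
    {ε : ℝ} (hε : 0 < ε) : ∃ s, Ch K0 x y s ∧ κ * s ≤ dK K c x y + ε := by
  obtain ⟨k, r, h⟩ := hCn c x y hx hy
  obtain ⟨r', ⟨k', hp⟩, hlt⟩ := exists_lt_of_csInf_lt
    (s := {r : ℝ | ∃ k, Path K c x y k r}) ⟨r, k, h⟩ (lt_add_of_pos_right (dK K c x y) hε)
  obtain ⟨s, hs, hle⟩ := ch_of_path hK hc hp
  exact ⟨s, hs, hle.trans hlt.le⟩

/-! ### Nets -/

/-- conversion of nets -/
def cv : Pool.Agent.Lib.MP_9f84a9_co.Net N → Net (Fin N)
  | .leaf v => .leaf v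
  | .node z l r => .node z (cv l) (cv r)

theorem cv_leaves : ∀ B : Pool.Agent.Lib.MP_9f84a9_co.Net N, (cv B).leaves = B.leaves
  | .leaf _ => rfl
  | .node _ l r => by
    show (cv l).leaves ++ (cv r).leaves = l.leaves ++ r.leaves
    rw [cv_leaves l, cv_leaves r]

theorem top_in {K : Cx N} : ∀ B : Pool.Agent.Lib.MP_9f84a9_co.Net N,
    (∀ z ∈ B.nodes, In K z) → (∀ v ∈ B.leaves, In K (vx v)) → In K B.top
  | .leaf v, _, h => h v (List.mem_singleton.2 rfl)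
  | .node z _ _, h, _ => h z List.mem_cons_self

theorem nl_of_len {K K0 : Cx N} (hK : K ⊆ K0) (hCn : Cn K) {c : Pt N → Pt N → ℝ} {κ : ℝ}
    (hc : ∀ x y, Stp K x y → κ * dist x y ≤ c x y) (B : Pool.Agent.Lib.MP_9f84a9_co.Net N) :
    ∀ q : Pt N, (∀ z ∈ B.nodes, In K z) → (∀ v ∈ B.leaves, In K (vx v)) → In K q →
    ∀ ε : ℝ, 0 < ε → ∃ s, NL K0 q (cv B) s ∧ κ * s ≤ dK K c q B.top + B.len (dK K c) + ε := by
  induction B with
  | leaf v =>
    intro q _ hl hq ε hε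
    obtain ⟨s, hs, hle⟩ := ch_of_dK hK hCn hc hq (hl v (List.mem_singleton.2 rfl)) hε
    refine ⟨s, hs, ?_⟩
    show κ * s ≤ dK K c q (vx v) + 0 + ε
    rw [add_zero]
    exact hle
  | node z l r ihl ihr =>
    intro q hn hl hq ε hε
    have hz : In K z := hn z List.mem_cons_self
    have hε3 : 0 < ε / 3 := by positivity
    obtain ⟨s0, c0, h0⟩ := ch_of_dK hK hCn hc hq hz hε3
    obtain ⟨s1, c1, h1⟩ := ihl z (fun y hy => hn y (List.mem_cons_of_mem _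
      (List.mem_append_left _ hy))) (fun v hv => hl v (List.mem_append_left _ hv)) hz _ hε3
    obtain ⟨s2, c2, h2⟩ := ihr z (fun y hy => hn y (List.mem_cons_of_mem _
      (List.mem_append_right _ hy))) (fun v hv => hl v (List.mem_append_right _ hv)) hz _ hε3
    refine ⟨s0 + s1 + s2, ⟨s0, s1, s2, c0, c1, c2, rfl⟩, ?_⟩
    show κ * (s0 + s1 + s2) ≤ dK K c q z + (dK K c z l.top + dK K c z r.top + l.len (dK K c) +
      r.len (dK K c)) + ε
    rw [mul_add, mul_add]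
    linarith

/-- the net seen from its first leaf -/
theorem reroot (d : Pt N → Pt N → ℝ) (hd : ∀ x y, d x y = d y x)
    (A : Pool.Agent.Lib.MP_9f84a9_co.Net N) : ∀ B : Pool.Agent.Lib.MP_9f84a9_co.Net N,
    ∃ B' : Pool.Agent.Lib.MP_9f84a9_co.Net N, (A.fl :: B'.leaves).Perm (A.leaves ++ B.leaves) ∧
      (∀ z ∈ B'.nodes, z ∈ A.nodes ++ B.nodes) ∧
      Pool.Agent.Lib.MP_9f84a9_co.Net.tlen d (A, B) = d (vx A.fl) B'.top + B'.len d := by
  induction A with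
  | leaf v =>
    intro B
    refine ⟨B, List.Perm.refl _, fun z hz => hz, ?_⟩
    show d (vx v) B.top + 0 + B.len d = d (vx v) B.top + B.len d
    rw [add_zero]
  | node z l r ihl _ =>
    intro B
    obtain ⟨B', h1, h2, h3⟩ := ihl (.node z r B)
    refine ⟨B', ?_, ?_, ?_⟩
    · show (l.fl :: B'.leaves).Perm ((l.leaves ++ r.leaves) ++ B.leaves)
      rw [List.append_assoc]
      exact h1
    · intro y hy
      have h := h2 y hy
      have h' : y ∈ l.nodes ++ (z :: (r.nodes ++ B.nodes)) := h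
      show y ∈ (z :: (l.nodes ++ r.nodes)) ++ B.nodes
      simp only [List.mem_append, List.mem_cons] at h' ⊢
      tauto
    · show _ = d (vx l.fl) B'.top + B'.len d
      rw [← h3]
      show d z B.top + (d z l.top + d z r.top + l.len d + r.len d) + B.len d =
        d l.top z + l.len d + (d z r.top + d z B.top + r.len d + B.len d)
      rw [hd l.top z]; ring

/-! ### Polygons -/

theorem pl_pt {a b : Fin N} (P : PT N) : ∀ (a' b' : Fin N) (K : Cx N), Pl a b K →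
    (∃ σ ∈ K, a' ∈ σ ∧ b' ∈ σ) → a' ≠ b' → P.vs.Nodup → (∀ v ∈ P.vs, ∀ σ ∈ K, v ∉ σ) →
    ∃ K', Pl a b K' ∧ K ⊆ K' ∧ P.fac a' b' ⊆ K' ∧
      ∀ σ ∈ K', ∀ v ∈ σ, (∃ τ ∈ K, v ∈ τ) ∨ v ∈ P.vs := by
  induction P with
  | nil =>
    intro a' b' K hK _ _ _ _
    exact ⟨K, hK, Finset.Subset.refl _, by simp [PT.fac], fun σ hσ v hv => Or.inl ⟨σ, hσ, hv⟩⟩
  | node w l r ihl ihr =>
    intro a' b' K hK he hne hnd hnew
    have hnd' : w ∉ l.vs ++ r.vs ∧ (l.vs ++ r.vs).Nodup := List.nodup_cons.1 hnd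
    have hlr := List.nodup_append.1 hnd'.2
    obtain ⟨σ0, hσ0, ha0, hb0⟩ := he
    have hvs : ∀ v, v ∈ (PT.node w l r).vs ↔ v = w ∨ v ∈ l.vs ∨ v ∈ r.vs := by
      intro v
      show v ∈ w :: (l.vs ++ r.vs) ↔ _
      rw [List.mem_cons, List.mem_append]
    have hw : ∀ σ ∈ K, w ∉ σ := hnew w ((hvs w).2 (Or.inl rfl))
    have hK1 : Pl a b (insert {a', b', w} K) := Pl.ear K a' b' w hK ⟨σ0, hσ0, ha0, hb0⟩ hne hw
    have haw : a' ≠ w := fun e => hw σ0 hσ0 (e ▸ ha0)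
    have hwb : w ≠ b' := fun e => hw σ0 hσ0 (e ▸ hb0)
    have hnewK1 : ∀ v, v ∈ l.vs ∨ v ∈ r.vs → ∀ σ ∈ insert {a', b', w} K, v ∉ σ := by
      intro v hv σ hσ hvσ
      have hvK : ∀ σ ∈ K, v ∉ σ := hnew v ((hvs v).2 (Or.inr hv))
      rcases Finset.mem_insert.1 hσ with e | hσK
      · subst e
        simp only [Finset.mem_insert, Finset.mem_singleton] at hvσ
        rcases hvσ with e | e | e
        · exact hvK σ0 hσ0 (e ▸ ha0)
        · exact hvK σ0 hσ0 (e ▸ hb0)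
        · rw [e] at hv
          exact hnd'.1 (List.mem_append.2 hv)
      · exact hvK σ hσK hvσ
    obtain ⟨K2, hK2, h12, hf2, hv2⟩ := ihl a' w (insert {a', b', w} K) hK1
      ⟨{a', b', w}, Finset.mem_insert_self _ _, by simp, by simp⟩ haw hlr.1
      (fun v hv => hnewK1 v (Or.inl hv))
    obtain ⟨K3, hK3, h23, hf3, hv3⟩ := ihr w b' K2 hK2
      ⟨{a', b', w}, h12 (Finset.mem_insert_self _ _), by simp, by simp⟩ hwb hlr.2.1 (by
        intro v hv σ hσ hvσ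
        rcases hv2 σ hσ v hvσ with ⟨τ, hτ, hvτ⟩ | hvl
        · exact hnewK1 v (Or.inr hv) τ hτ hvτ
        · exact hlr.2.2 v hvl v hv rfl)
    refine ⟨K3, hK3, fun σ hσ => h23 (h12 (Finset.mem_insert_of_mem hσ)), ?_, ?_⟩
    · intro σ hσ
      have hσ' : σ ∈ insert {a', b', w} (l.fac a' w ∪ r.fac w b') := hσ
      rcases Finset.mem_insert.1 hσ' with e | hσ2
      · rw [e]; exact h23 (h12 (Finset.mem_insert_self _ _))
      · rcases Finset.mem_union.1 hσ2 with h | h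
        · exact h23 (hf2 h)
        · exact hf3 h
    · intro σ hσ v hv
      rw [hvs v]
      rcases hv3 σ hσ v hv with ⟨τ, hτ, hvτ⟩ | hvr
      · rcases hv2 τ hτ v hvτ with ⟨τ', hτ', hvτ'⟩ | hvl
        · rcases Finset.mem_insert.1 hτ' with e | h
          · subst e
            simp only [Finset.mem_insert, Finset.mem_singleton] at hvτ'
            rcases hvτ' with e | e | e
            · exact Or.inl ⟨σ0, hσ0, e ▸ ha0⟩
            · exact Or.inl ⟨σ0, hσ0, e ▸ hb0⟩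
            · exact Or.inr (Or.inl e)
          · exact Or.inl ⟨τ', h, hvτ'⟩
        · exact Or.inr (Or.inr (Or.inl hvl))
      · exact Or.inr (Or.inr (Or.inr hvr))

theorem pl_dsc (D : Dsc N) (hD : D.ok) : ∃ K0, Pl D.a D.b K0 ∧ D.K ⊆ K0 := by
  have hnd : (D.a :: D.b :: (D.P.vs ++ D.R.vs)).Nodup := hD
  rw [List.nodup_cons, List.nodup_cons, List.nodup_append] at hnd
  obtain ⟨ha, hb, hP, hR, hPR⟩ := hnd
  rw [List.mem_cons, not_or, List.mem_append, not_or] at ha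
  rw [List.mem_append, not_or] at hb
  obtain ⟨K1, hK1, h1, hf1, hv1⟩ := pl_pt D.P D.a D.b {{D.a, D.b}} (Pl.base ha.1)
    ⟨{D.a, D.b}, by simp, by simp, by simp⟩ ha.1 hP (by
      intro v hv σ hσ hvσ
      rw [Finset.mem_singleton] at hσ
      subst hσ
      rw [Finset.mem_insert, Finset.mem_singleton] at hvσ
      rcases hvσ with e | e
      · exact ha.2.1 (e ▸ hv)
      · exact hb.1 (e ▸ hv))
  obtain ⟨K0, hK0, h0, hf0, _⟩ := pl_pt D.R D.b D.a K1 hK1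
    ⟨{D.a, D.b}, h1 (by simp), by simp, by simp⟩ (Ne.symm ha.1) hR (by
      intro v hv σ hσ hvσ
      rcases hv1 σ hσ v hvσ with ⟨τ, hτ, hvτ⟩ | hvP
      · rw [Finset.mem_singleton] at hτ
        subst hτ
        rw [Finset.mem_insert, Finset.mem_singleton] at hvτ
        rcases hvτ with e | e
        · exact ha.2.2 (e ▸ hv)
        · exact hb.2 (e ▸ hv)
      · exact hPR v hvP v hv rfl)
  refine ⟨K0, hK0, ?_⟩
  intro σ hσ
  unfold Dsc.K at hσ
  split_ifs at hσ with h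
  · exact h0 (h1 hσ)
  · rcases Finset.mem_union.1 hσ with h' | h'
    · exact h0 (hf1 h')
    · exact hf0 h'

/-- section 8 -/
theorem p_lat (hA1 : S_A1) (hA2 : S_A2) (hB1 : S_B1) (hB2 : S_B2) (hB4 : S_B4) (hB5 : S_B5) :
    S_lat := by
  intro N Cl P ℓ q hq hnd hℓ hedge
  have hDok := hq.dok
  obtain ⟨hce, _, _, _, hvx, _⟩ := hA1 N
  obtain ⟨h4a, h4b, h4c, _⟩ := hB4 N q.D hDok
  have hCn : Cn q.D.K := hB5 N q.D hDok
  obtain ⟨_, _, hsymm, _, _⟩ := hA2 N q.D.K (ce q.p) (hce q.p) hCn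
  -- the root
  obtain ⟨B', hperm, hnodes, hlen⟩ := reroot q.d hsymm q.T.1 q.T.2
  have hperm' : (q.root :: B'.leaves).Perm q.lv := hperm
  have hroot : q.root ∈ q.lv := hperm'.mem_iff.1 List.mem_cons_self
  have hrv : q.root ∈ q.D.vl := hq.lvs _ hroot
  obtain ⟨f, hf, hrf⟩ := h4b _ hrv
  -- another vertex of the facet
  obtain ⟨y, hy, hyr⟩ : ∃ y ∈ f, q.root ≠ y := by
    have hc : 1 < f.card := by
      rcases h4c f hf with h | ⟨_, _, h⟩
      · omega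
      · have hnd' : (q.D.a :: q.D.b :: (q.D.P.vs ++ q.D.R.vs)).Nodup := hDok
        rw [List.nodup_cons, List.mem_cons, not_or] at hnd'
        rw [h, Finset.card_pair hnd'.1.1]
        norm_num
    obtain ⟨y, hy, hyr⟩ := Finset.exists_mem_ne hc q.root
    exact ⟨y, hy, Ne.symm hyr⟩
  obtain ⟨D', hE, hDa, _⟩ := (hB2 N q.D hDok f hf q.root hrf y hy hyr).1
  obtain ⟨_, hok, hKK, _⟩ := hB1 N q.D D' hE
  obtain ⟨K0, hPl, hK0⟩ := pl_dsc D' (hok.1 hDok)
  rw [← hKK] at hK0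
  rw [hDa] at hPl
  -- the cost
  have hcard : ∀ f ∈ q.D.K, f.card ≤ 3 := by
    intro f hf
    rcases h4c f hf with h | ⟨_, _, h⟩
    · omega
    · rw [h]
      exact (Finset.card_le_two).trans (by norm_num)
  have hc : ∀ x y, Stp q.D.K x y → Real.sqrt 3 / 2 * ℓ * dist x y ≤ ce q.p x y := by
    rintro x y ⟨⟨_, hx1, _⟩, ⟨_, hy1, _⟩, g, hg, hsx, hsy⟩
    exact step_le q.p hℓ (hcard g hg) (hedge g hg) hx1 hy1 hsx hsy
  have hin : ∀ v ∈ q.lv, In q.D.K (vx v) := by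
    intro v hv
    obtain ⟨g, hg, hvg⟩ := h4b v (hq.lvs v hv)
    exact (hvx q.D.K g v hg hvg).1
  have hB'l : ∀ v ∈ B'.leaves, v ∈ q.lv := fun v hv => hperm'.mem_iff.1 (List.mem_cons_of_mem _ hv)
  have hnd2 : (q.root :: B'.leaves).Nodup := hperm'.nodup_iff.2 hnd
  have hlenv : (q.lv.length : ℝ) - 1 = B'.leaves.length := by
    rw [← hperm'.length_eq, List.length_cons]
    push_cast; ring
  rw [hlenv]
  have hκ : 0 < Real.sqrt 3 / 2 * ℓ := by positivity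
  have hL : q.L = q.d (vx q.root) B'.top + B'.len q.d := hlen
  apply le_of_forall_pos_le_add
  intro ε hε
  obtain ⟨s, hNL, hs⟩ := nl_of_len hK0 hCn hc B' (vx q.root)
    (fun z hz => hq.nods z (hnodes z hz)) (fun v hv => hin v (hB'l v hv)) (hin _ hroot) ε hε
  have hcore := lattice_core hPl (cv B') s hNL (by rw [cv_leaves]; exact (List.nodup_cons.1 hnd2).2)
    (by rw [cv_leaves]; exact (List.nodup_cons.1 hnd2).1)
  rw [cv_leaves] at hcore
  have h1 := mul_le_mul_of_nonneg_left hcore hκ.le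
  rw [hL]
  exact h1.trans hs

end Pool.Agent.Lib.MP_9f84a9_co.Lat
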